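import Pool.Agent.Lib.MP_a82f45_ag.Odd
import Pool.Agent.Lib.MP_a82f45_ag.Two

set_option autoImplicit false

namespace Pool.Agent.Results.MP_a82f45_ag.AllIg1

universe u

open Pool.Agent.Lib.MP_a82f45_ag

/-- Over every algebraically closed field `k` of characteristic `p > 0` there are curves of every
genus `g ≥ 1` on whose `H¹(X, O_X)` Frobenius is nilpotent with one-dimensional kernel, that is,
curves whose Jacobian has `p`-rank zero and `a`-number one. -/
theorem result (p : ℕ) [Fact p.Prime] (k : Type u) [Field k] [IsAlgClosed k] [CharP k p]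
    (g : ℕ) (hg : 1 ≤ g) :
    ∃ (K : Type u) (_ : Field K) (_ : Algebra k K) (x : K),
      IsFunctionField k x ∧
      Module.finrank k (H1 k x) = g ∧
      (∃ n : ℕ, ∀ h : H1 k x, (frob p k x)^[n] h = 0) ∧
      Module.finrank k (LinearMap.ker (frob p k x)) = 1 := by
  have hp : p.Prime := Fact.out
  rcases hp.eq_two_or_odd' with h | ⟨n, hn⟩
  · subst h
    exact Two.binary k g hg
  · exact odd_case p n hn k g hg

end Pool.Agent.Results.MP_a82f45_ag.AllIg1
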